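import Mathlib
import Pool.Agent.Lib.H81.SquareCert

/-!
# A maximal distance minimizer need not be the only minimizer for its own neighbourhood

Let `r = 2` and let `V = {(±1, ±1)}`.  The two Steiner trees `Σ₁` (horizontal bar) and `Σ₂`
(vertical bar) of `V` have the same length `2 (1 + √3)`.  The closed `2`-neighbourhood of `Σ₁` is
contained in the union of the four discs of radius `2` around the points of `V`, hence also in the
closed `2`-neighbourhood of `Σ₂`.  There is a set `M` of eight points, two on the boundary of each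
of these discs, such that every continuum within distance `2` of all points of `M` has length at
least `2 (1 + √3)` (`Pool.Agent.Lib.H81.length_ge`).  So `Σ₁` is a minimizer for `M`, and both `Σ₁`
and `Σ₂` are minimizers for the closed `2`-neighbourhood of `Σ₁`.
-/

set_option autoImplicit false

open MeasureTheory Pool.Agent.Lib.H81

namespace Pool.Agent.Results.MP_497448_gt.NotUnique

/-- `S` is an `r`-minimizer for `M`: a connected compact set of least length whose closed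
`r`-neighbourhood contains `M`. -/
def IsMinimizer {d : ℕ} (r : ℝ) (M S : Set (EuclideanSpace ℝ (Fin d))) : Prop :=
  IsCompact S ∧ IsConnected S ∧ M ⊆ Metric.cthickening r S ∧
    ∀ T : Set (EuclideanSpace ℝ (Fin d)), IsCompact T → IsConnected T →
      M ⊆ Metric.cthickening r T → μH[1] S ≤ μH[1] T

/-! ### Trees with two branching points -/

/-- The tree with leaves `p₁, p₂` attached to `c₁`, leaves `p₃, p₄` attached to `c₂`, and the bar
`c₁ c₂`. -/
def htree (p₁ p₂ p₃ p₄ c₁ c₂ : E) : Set E :=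
  segment ℝ p₁ c₁ ∪ segment ℝ p₂ c₁ ∪ segment ℝ c₁ c₂ ∪ segment ℝ p₃ c₂ ∪ segment ℝ p₄ c₂

lemma isCompact_seg (x y : E) : IsCompact (segment ℝ x y) := by
  rw [segment_eq_image]
  exact isCompact_Icc.image (by fun_prop)

lemma isConnected_seg (x y : E) : IsConnected (segment ℝ x y) :=
  ⟨⟨x, left_mem_segment ℝ x y⟩, (convex_segment x y).isPreconnected⟩

lemma isCompact_htree (p₁ p₂ p₃ p₄ c₁ c₂ : E) : IsCompact (htree p₁ p₂ p₃ p₄ c₁ c₂) :=
  ((((isCompact_seg _ _).union (isCompact_seg _ _)).union (isCompact_seg _ _)).union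
    (isCompact_seg _ _)).union (isCompact_seg _ _)

lemma isConnected_htree (p₁ p₂ p₃ p₄ c₁ c₂ : E) : IsConnected (htree p₁ p₂ p₃ p₄ c₁ c₂) := by
  have h1 : IsConnected (segment ℝ p₁ c₁ ∪ segment ℝ p₂ c₁) :=
    IsConnected.union ⟨c₁, right_mem_segment _ _ _, right_mem_segment _ _ _⟩
      (isConnected_seg _ _) (isConnected_seg _ _)
  have h2 := IsConnected.union (s := segment ℝ p₁ c₁ ∪ segment ℝ p₂ c₁) (t := segment ℝ c₁ c₂)
    ⟨c₁, Or.inl (right_mem_segment _ _ _), left_mem_segment _ _ _⟩ h1 (isConnected_seg _ _)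
  have h3 := IsConnected.union (t := segment ℝ p₃ c₂)
    ⟨c₂, Or.inr (right_mem_segment _ _ _), right_mem_segment _ _ _⟩ h2 (isConnected_seg _ _)
  exact IsConnected.union (t := segment ℝ p₄ c₂)
    ⟨c₂, Or.inr (right_mem_segment _ _ _), right_mem_segment _ _ _⟩ h3 (isConnected_seg _ _)

lemma measure_htree_le (p₁ p₂ p₃ p₄ c₁ c₂ : E) :
    μH[1] (htree p₁ p₂ p₃ p₄ c₁ c₂) ≤
      ENNReal.ofReal (dist p₁ c₁ + dist p₂ c₁ + dist c₁ c₂ + dist p₃ c₂ + dist p₄ c₂) := by
  refine (measure_union_le _ _).trans ?_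
  rw [ENNReal.ofReal_add (by positivity) (by positivity)]
  refine add_le_add ((measure_union_le _ _).trans ?_) (by simp [edist_dist])
  rw [ENNReal.ofReal_add (by positivity) (by positivity)]
  refine add_le_add ((measure_union_le _ _).trans ?_) (by simp [edist_dist])
  rw [ENNReal.ofReal_add (by positivity) (by positivity)]
  refine add_le_add ((measure_union_le _ _).trans ?_) (by simp [edist_dist])
  rw [ENNReal.ofReal_add (by positivity) (by positivity)]
  simp [edist_dist]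

/-- The half length of the bar. -/
noncomputable def s : ℝ := 1 - √3 / 3

/-- The Steiner tree with the horizontal bar. -/
noncomputable def T₁ : Set E :=
  htree !₂[1, 1] !₂[1, -1] !₂[-1, 1] !₂[-1, -1] !₂[s, 0] !₂[-s, 0]

/-- The Steiner tree with the vertical bar. -/
noncomputable def T₂ : Set E :=
  htree !₂[1, 1] !₂[-1, 1] !₂[1, -1] !₂[-1, -1] !₂[0, s] !₂[0, -s]

lemma sq3 : √3 * √3 = (3 : ℝ) := Real.mul_self_sqrt (by norm_num)

lemma dist_eq' (a b c d : ℝ) : dist (!₂[a, b] : E) !₂[c, d] = √((a - c) ^ 2 + (b - d) ^ 2) := by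
  rw [EuclideanSpace.dist_eq, Fin.sum_univ_two]
  simp [Real.dist_eq, sq_abs]

lemma sqrt_eq' {a b : ℝ} (hb : 0 ≤ b) (h : a = b ^ 2) : √a = b := by
  rw [h]; exact Real.sqrt_sq hb

lemma s_pos : 0 < s := by
  have := sq3
  have h0 : 0 ≤ √3 := Real.sqrt_nonneg 3
  unfold s
  nlinarith

lemma dist_leaf {a b c d : ℝ} (h : (a - c) ^ 2 + (b - d) ^ 2 = (1 - s) ^ 2 + 1) :
    dist (!₂[a, b] : E) !₂[c, d] = 2 * √3 / 3 := by
  have h3 := sq3
  rw [dist_eq']
  refine sqrt_eq' (by positivity) ?_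
  rw [h]
  unfold s
  nlinarith

lemma dist_bar {a b c d : ℝ} (h : (a - c) ^ 2 + (b - d) ^ 2 = (2 * s) ^ 2) :
    dist (!₂[a, b] : E) !₂[c, d] = 2 * s := by
  rw [dist_eq']
  exact sqrt_eq' (by have := s_pos; positivity) h

lemma measure_T₁ : μH[1] T₁ ≤ ENNReal.ofReal (2 * (1 + √3)) := by
  refine (measure_htree_le _ _ _ _ _ _).trans (le_of_eq ?_)
  rw [dist_leaf (by ring), dist_leaf (by ring), dist_bar (by ring), dist_leaf (by ring),
    dist_leaf (by ring)]
  unfold s
  congr 1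
  ring

lemma measure_T₂ : μH[1] T₂ ≤ ENNReal.ofReal (2 * (1 + √3)) := by
  refine (measure_htree_le _ _ _ _ _ _).trans (le_of_eq ?_)
  rw [dist_leaf (by ring), dist_leaf (by ring), dist_bar (by ring), dist_leaf (by ring),
    dist_leaf (by ring)]
  unfold s
  congr 1
  ring

/-! ### Membership in the neighbourhoods -/

lemma dist_le_two (z x : E) : dist z x ≤ 2 ↔ (z 0 - x 0) ^ 2 + (z 1 - x 1) ^ 2 ≤ 4 := by
  rw [EuclideanSpace.dist_eq, Fin.sum_univ_two, Real.sqrt_le_left (by norm_num), Real.dist_eq,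
    Real.dist_eq, sq_abs, sq_abs]
  norm_num

/-- The corners of the square belong to the first tree. -/
lemma corner_mem_T₁ {a b : ℝ} (ha : a = 1 ∨ a = -1) (hb : b = 1 ∨ b = -1) :
    (!₂[a, b] : E) ∈ T₁ := by
  rcases ha with rfl | rfl <;> rcases hb with rfl | rfl
  · exact Or.inl (Or.inl (Or.inl (Or.inl (left_mem_segment _ _ _))))
  · exact Or.inl (Or.inl (Or.inl (Or.inr (left_mem_segment _ _ _))))
  · exact Or.inl (Or.inr (left_mem_segment _ _ _))
  · exact Or.inr (left_mem_segment _ _ _)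

/-- The corners of the square belong to the second tree. -/
lemma corner_mem_T₂ {a b : ℝ} (ha : a = 1 ∨ a = -1) (hb : b = 1 ∨ b = -1) :
    (!₂[a, b] : E) ∈ T₂ := by
  rcases ha with rfl | rfl <;> rcases hb with rfl | rfl
  · exact Or.inl (Or.inl (Or.inl (Or.inl (left_mem_segment _ _ _))))
  · exact Or.inl (Or.inr (left_mem_segment _ _ _))
  · exact Or.inl (Or.inl (Or.inl (Or.inr (left_mem_segment _ _ _))))
  · exact Or.inr (left_mem_segment _ _ _)

/-- A point outside the disc around the nearest corner is far from the leaves of the first tree. -/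
lemma far_leaf {p q t : ℝ} (hp : 0 ≤ p) (hq : 0 ≤ q) (h : 4 < (p - 1) ^ 2 + (q - 1) ^ 2)
    (ht : 0 ≤ t) : 4 < (p - (1 - t * (√3 / 3))) ^ 2 + (q - (1 - t)) ^ 2 := by
  have h3 := sq3
  have h0 : 0 ≤ √3 := Real.sqrt_nonneg 3
  have key : 0 ≤ (p - 1) * (√3 / 3) + (q - 1) := by
    by_contra hneg
    push Not at hneg
    rcases le_total 1 q with h1 | h1
    · -- then `p ≤ 1`, and `q - 1 ≤ 1/√3`
      have h2 : p - 1 < 0 := by
        by_contra h2
        push Not at h2
        have : 0 ≤ (p - 1) * (√3 / 3) := by positivity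
        linarith
      have h4 : q - 1 ≤ √3 / 3 := by nlinarith
      nlinarith
    · have h2 : p - 1 ≤ √3 := by nlinarith
      have h5 : 1 ≤ √3 := by nlinarith
      have h6 : (q - 1) ^ 2 ≤ 1 := by nlinarith
      have h7 : 0 ≤ (√3 - (p - 1)) * (√3 + (p - 1)) :=
        mul_nonneg (by linarith) (by linarith)
      nlinarith
  have e : (p - (1 - t * (√3 / 3))) ^ 2 + (q - (1 - t)) ^ 2 =
      ((p - 1) ^ 2 + (q - 1) ^ 2) + 2 * (t * ((p - 1) * (√3 / 3) + (q - 1))) +
        (t * (√3 / 3)) ^ 2 + t ^ 2 := by ring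
  have h5 : 0 ≤ t * ((p - 1) * (√3 / 3) + (q - 1)) := mul_nonneg ht key
  rw [e]
  have h6 : 0 ≤ (t * (√3 / 3)) ^ 2 := sq_nonneg _
  have h7 : 0 ≤ t ^ 2 := sq_nonneg _
  linarith

/-- A point outside the disc around the nearest corner is far from the bar of the first tree. -/
lemma far_bar {p q u : ℝ} (hp : 0 ≤ p) (hq : 0 ≤ q) (h : 4 < (p - 1) ^ 2 + (q - 1) ^ 2)
    (hu : 0 ≤ u) (hus : u ≤ s) : 4 < (p - u) ^ 2 + q ^ 2 := by
  have h3 := sq3
  have h0 : 0 ≤ √3 := Real.sqrt_nonneg 3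
  have h1 : √3 / 3 ≤ 1 - u := by unfold s at hus; linarith
  rcases le_total (√3) p with hp3 | hp3
  · have : 1 ≤ p * (1 - u) := by nlinarith
    nlinarith
  · have h4 : 1 ≤ q - 1 := by
      by_contra hlt
      push Not at hlt
      nlinarith
    have : 0 ≤ p * (1 - u) := by
      have : 0 ≤ 1 - u := by nlinarith
      positivity
    nlinarith

/-- Coordinates of the points of the first tree. -/
lemma abs_coords_T₁ {x : E} (hx : x ∈ T₁) :
    (∃ t : ℝ, 0 ≤ t ∧ |x 0| = 1 - t * (√3 / 3) ∧ |x 1| = 1 - t) ∨ (|x 0| ≤ s ∧ x 1 = 0) := by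
  have h3 := sq3
  have h0 : 0 ≤ √3 := Real.sqrt_nonneg 3
  have hs := s_pos
  have h1 : √3 / 3 ≤ 1 := by unfold s at hs; linarith
  have leaf : ∀ a b : ℝ, (a = 1 ∨ a = -1) → (b = 1 ∨ b = -1) →
      x ∈ segment ℝ (!₂[a, b] : E) !₂[a * s, 0] →
      ∃ t : ℝ, 0 ≤ t ∧ |x 0| = 1 - t * (√3 / 3) ∧ |x 1| = 1 - t := by
    intro a b ha hb hx
    rw [segment_eq_image] at hx
    obtain ⟨t, ⟨ht0, ht1⟩, rfl⟩ := hx
    refine ⟨t, ht0, ?_, ?_⟩
    · have e : ((1 - t) • (!₂[a, b] : E) + t • !₂[a * s, 0]) 0 = a * (1 - t * (√3 / 3)) := by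
        simp [s]; ring
      have h2 : 0 ≤ 1 - t * (√3 / 3) := by nlinarith
      rw [e, abs_mul, abs_of_nonneg h2]
      rcases ha with rfl | rfl <;> simp
    · have e : ((1 - t) • (!₂[a, b] : E) + t • !₂[a * s, 0]) 1 = b * (1 - t) := by
        simp; ring
      rw [e, abs_mul, abs_of_nonneg (sub_nonneg.2 ht1)]
      rcases hb with rfl | rfl <;> simp
  rcases hx with (((hx | hx) | hx) | hx) | hx
  · exact Or.inl (leaf 1 1 (by simp) (by simp) (by simpa using hx))
  · exact Or.inl (leaf 1 (-1) (by simp) (by simp) (by simpa using hx))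
  · right
    rw [segment_eq_image] at hx
    obtain ⟨t, ⟨ht0, ht1⟩, rfl⟩ := hx
    constructor
    · have e : ((1 - t) • (!₂[s, 0] : E) + t • !₂[-s, 0]) 0 = s * (1 - 2 * t) := by
        simp; ring
      rw [e, abs_mul, abs_of_pos hs]
      have : |1 - 2 * t| ≤ 1 := abs_le.2 ⟨by linarith, by linarith⟩
      nlinarith
    · simp
  · exact Or.inl (leaf (-1) 1 (by simp) (by simp) (by simpa using hx))
  · exact Or.inl (leaf (-1) (-1) (by simp) (by simp) (by simpa using hx))

/-- The neighbourhood of the first tree is covered by the discs around the corners. -/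
lemma near_corner {z : E} (hz : z ∈ Metric.cthickening 2 T₁) :
    ∃ a b : ℝ, (a = 1 ∨ a = -1) ∧ (b = 1 ∨ b = -1) ∧ dist z !₂[a, b] ≤ 2 := by
  have hc : IsCompact T₁ := isCompact_htree _ _ _ _ _ _
  rw [hc.cthickening_eq_biUnion_closedBall (by norm_num)] at hz
  obtain ⟨x, hxT, hx⟩ := Set.mem_iUnion₂.1 hz
  rw [Metric.mem_closedBall, dist_le_two] at hx
  have habs : (|z 0| - |x 0|) ^ 2 + (|z 1| - |x 1|) ^ 2 ≤ 4 := by
    have h1 : (|z 0| - |x 0|) ^ 2 ≤ (z 0 - x 0) ^ 2 := sq_le_sq.2 (abs_abs_sub_abs_le _ _)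
    have h2 : (|z 1| - |x 1|) ^ 2 ≤ (z 1 - x 1) ^ 2 := sq_le_sq.2 (abs_abs_sub_abs_le _ _)
    linarith
  have hnear : (|z 0| - 1) ^ 2 + (|z 1| - 1) ^ 2 ≤ 4 := by
    by_contra hfar
    push Not at hfar
    rcases abs_coords_T₁ hxT with ⟨t, ht, h0, h1⟩ | ⟨h0, h1⟩
    · have := far_leaf (abs_nonneg (z 0)) (abs_nonneg (z 1)) hfar ht
      rw [h0, h1] at habs
      linarith
    · have := far_bar (abs_nonneg (z 0)) (abs_nonneg (z 1)) hfar (abs_nonneg (x 0)) h0
      rw [h1, abs_zero, sub_zero] at habs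
      linarith
  refine ⟨if 0 ≤ z 0 then 1 else -1, if 0 ≤ z 1 then 1 else -1, ?_, ?_, ?_⟩
  · split_ifs <;> simp
  · split_ifs <;> simp
  · rw [dist_le_two]
    have e0 : (z 0 - if 0 ≤ z 0 then 1 else -1) ^ 2 = (|z 0| - 1) ^ 2 := by
      split_ifs with h
      · rw [abs_of_nonneg h]
      · rw [abs_of_neg (not_le.1 h)]; ring
    have e1 : (z 1 - if 0 ≤ z 1 then 1 else -1) ^ 2 = (|z 1| - 1) ^ 2 := by
      split_ifs with h
      · rw [abs_of_nonneg h]
      · rw [abs_of_neg (not_le.1 h)]; ring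
    simp only [Matrix.cons_val_zero, Matrix.cons_val_one]
    rw [e0, e1]
    exact hnear

lemma cthickening_subset : Metric.cthickening 2 T₁ ⊆ Metric.cthickening 2 T₂ := by
  intro z hz
  obtain ⟨a, b, ha, hb, hd⟩ := near_corner hz
  exact Metric.mem_cthickening_of_dist_le z _ 2 _ (corner_mem_T₂ ha hb) hd

lemma yv_near (k : Fin 8) : yv k ∈ Metric.cthickening 2 T₁ := by
  have h3 := sq3
  have key : ∀ a b : ℝ, (a = 1 ∨ a = -1) → (b = 1 ∨ b = -1) →
      (yv k 0 - a) ^ 2 + (yv k 1 - b) ^ 2 ≤ 4 → yv k ∈ Metric.cthickening 2 T₁ := by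
    intro a b ha hb h
    refine Metric.mem_cthickening_of_dist_le _ _ 2 _ (corner_mem_T₁ ha hb) ?_
    rw [dist_le_two]
    simpa using h
  fin_cases k
  · refine key 1 1 (by simp) (by simp) ?_
    simp [yv, yc]; nlinarith
  · refine key 1 1 (by simp) (by simp) ?_
    simp [yv, yc]; nlinarith
  · refine key (-1) 1 (by simp) (by simp) ?_
    simp [yv, yc]; nlinarith
  · refine key (-1) 1 (by simp) (by simp) ?_
    simp [yv, yc]; nlinarith
  · refine key (-1) (-1) (by simp) (by simp) ?_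
    simp [yv, yc]; nlinarith
  · refine key (-1) (-1) (by simp) (by simp) ?_
    simp [yv, yc]; nlinarith
  · refine key 1 (-1) (by simp) (by simp) ?_
    simp [yv, yc]; nlinarith
  · refine key 1 (-1) (by simp) (by simp) ?_
    simp [yv, yc]; nlinarith

lemma T₂_ne_T₁ : T₂ ≠ T₁ := by
  intro h
  have h3 := sq3
  have h0 : 0 ≤ √3 := Real.sqrt_nonneg 3
  have hs := s_pos
  have hmem : (!₂[0, s] : E) ∈ T₂ := Or.inl (Or.inl (Or.inr (left_mem_segment _ _ _)))
  rw [h] at hmem
  rcases abs_coords_T₁ hmem with ⟨t, ht, h1, h2⟩ | ⟨-, h2⟩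
  · simp at h1 h2
    have h4 : 0 ≤ 1 - t := by rw [← h2]; exact abs_nonneg _
    nlinarith
  · simp at h2
    linarith

/-- **Disproof of Q1.** There are a set `M` of at most eight points of the plane, `r > 0`, an
`r`-minimizer `S` for `M`, and an `r`-minimizer `S' ≠ S` for the closed `r`-neighbourhood of `S`. -/
theorem result : ∃ (M S S' : Set (EuclideanSpace ℝ (Fin 2))) (r : ℝ),
    M.Finite ∧ IsCompact M ∧ 0 < r ∧ IsMinimizer r M S ∧
      IsMinimizer r (Metric.cthickening r S) S' ∧ S' ≠ S := by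
  have hfin : (Set.range yv).Finite := Set.finite_range _
  have hlow : ∀ T : Set E, IsCompact T → IsConnected T → Set.range yv ⊆ Metric.cthickening 2 T →
      ENNReal.ofReal (2 * (1 + √3)) ≤ μH[1] T := fun T hT hTc hcov =>
    length_ge hT hTc fun k => hcov ⟨k, rfl⟩
  have hM₁ : Set.range yv ⊆ Metric.cthickening 2 T₁ := by
    rintro _ ⟨k, rfl⟩
    exact yv_near k
  refine ⟨Set.range yv, T₁, T₂, 2, hfin, hfin.isCompact, by norm_num, ?_, ?_, T₂_ne_T₁⟩
  · exact ⟨isCompact_htree _ _ _ _ _ _, isConnected_htree _ _ _ _ _ _, hM₁,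
      fun T hT hTc hcov => measure_T₁.trans (hlow T hT hTc hcov)⟩
  · exact ⟨isCompact_htree _ _ _ _ _ _, isConnected_htree _ _ _ _ _ _, cthickening_subset,
      fun T hT hTc hcov => measure_T₂.trans (hlow T hT hTc (hM₁.trans hcov))⟩

end Pool.Agent.Results.MP_497448_gt.NotUnique
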